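import Pool.Agent.Helper27.PG.Defs
import Pool.Agent.Helper50.PB.Reg
import Pool.Agent.Helper98.GM.M1

/-!
# JT for all atomless laws, block (P) (MP_13b103_pr): Peierls' estimate, admissible weights
-/

set_option autoImplicit false

namespace Pool.Agent.Helper56.JT

open Pool.Agent.Helper79.GR Pool.Agent.Helper41.JT Pool.Agent.Helper27.PG MeasureTheory
  ProbabilityTheory Filter Topology

variable {Ω : Type*} [MeasurableSpace Ω] {P : Measure Ω} {d : ℕ} {X : Edge d → Ω → ℝ}
  {ν : Measure ℝ}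

/-- Peierls' estimate: long walks have at most half of their weights below `θ` -/
theorem ae_pei (h : EnvA P X ν) (_hd : 1 ≤ d) : ∃ p : ℝ, 0 < p ∧
    ∀ θ : ℝ, ν.real (Set.Iio θ) ≤ p → ∀ᵐ ω ∂P, ∀ x : V d, ∃ n₀ : ℕ, ∀ w : List (St d),
      n₀ ≤ w.length → (eds x w).Nodup →
      2 * (eds x w).countP (fun e => decide (cf X ω e < θ)) ≤ w.length := by
  classical
  have := h.prob
  refine ⟨Helper50.PB.pthr d (1 / 2), Helper50.PB.pthr_pos _ _, fun θ hθ => ?_⟩
  rw [ae_all_iff]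
  intro x
  have h1 := fun n : ℕ => Helper50.PB.peierls_set h.meas h.indep h.law (κ := 1 / 2) (by norm_num)
    (S := Set.Iio θ) measurableSet_Iio hθ x n
  have hsum : ∑' n : ℕ, P {ω | ∃ w : List (St d), n ≤ w.length ∧ (eds x w).Nodup ∧
      (1 / 2 : ℝ) * w.length < ((eds x w).countP (fun e => decide (X e ω ∈ Set.Iio θ)) : ℝ)} ≠ ⊤ := by
    refine ne_top_of_le_ne_top ?_ (ENNReal.tsum_le_tsum h1)
    have h2 : ∀ n : ℕ, ENNReal.ofReal (Real.exp (-n)) = ENNReal.ofReal (Real.exp (-1)) ^ n := by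
      intro n
      rw [← ENNReal.ofReal_pow (Real.exp_nonneg _), ← Real.exp_nat_mul]
      congr 2
      ring
    simp_rw [h2]
    rw [ENNReal.tsum_geometric]
    refine ENNReal.inv_ne_top.2 ?_
    rw [Ne, tsub_eq_zero_iff_le, not_le]
    rw [← ENNReal.ofReal_one]
    exact (ENNReal.ofReal_lt_ofReal_iff one_pos).2 (Real.exp_lt_one_iff.2 (by norm_num))
  filter_upwards [ae_eventually_notMem hsum] with ω hω
  obtain ⟨n₀, hn₀⟩ := eventually_atTop.1 hω
  refine ⟨n₀, fun w hw hnd => ?_⟩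
  by_contra hcon
  rw [not_le] at hcon
  apply hn₀ n₀ le_rfl
  refine ⟨w, hw, hnd, ?_⟩
  have h3 : (w.length : ℝ) < 2 * ((eds x w).countP (fun e => decide (cf X ω e < θ)) : ℝ) := by
    exact_mod_cast hcon
  have h4 : ((eds x w).countP (fun e => decide (X e ω ∈ Set.Iio θ)) : ℝ) =
      ((eds x w).countP (fun e => decide (cf X ω e < θ)) : ℝ) := by
    congr 1
  rw [h4]
  linarith

/-- no mass on `(-∞, 0]` -/
theorem nu_Iic (h : EnvA P X ν) : ν (Set.Iic 0) = 0 := by
  rw [← Set.Iio_union_right]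
  exact measure_union_null h.nonneg (h.atom 0)

theorem ae_pos (h : EnvA P X ν) : ∀ᵐ ω ∂P, ∀ e, 0 < cf X ω e := by
  have hc : Countable (Edge d) := inferInstance
  rw [ae_all_iff]
  intro e
  have h1 : P (X e ⁻¹' Set.Iic 0) = 0 := by
    rw [← Measure.map_apply (h.meas e) measurableSet_Iic, h.law e, nu_Iic h]
  rw [ae_iff]
  refine measure_mono_null ?_ h1
  intro ω hω
  simpa [cf] using hω

/-- a threshold with a small but positive mass below it -/
theorem exists_th (h : EnvA P X ν) (hd : 1 ≤ d) {p : ℝ} (hp : 0 < p) :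
    ∃ θ η : ℝ, 0 < θ ∧ 0 < η ∧ η < θ ∧ ν.real (Set.Iio θ) ≤ p ∧
      0 < ν (Set.Ioo 0 (θ - η)) := by
  have := h.prob
  have e₀ : Edge d := ed 0 (⟨0, hd⟩, true)
  have : IsProbabilityMeasure ν := by
    rw [← h.law e₀]
    exact Measure.isProbabilityMeasure_map (h.meas e₀).aemeasurable
  set A : Set ℝ := {t | ν (Set.Iio t) = 0} with hA
  have h0 : (0 : ℝ) ∈ A := h.nonneg
  have hbdd : BddAbove A := by
    by_contra hcon
    have h1 : ∀ n : ℕ, ν (Set.Iio (n : ℝ)) = 0 := by
      intro n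
      rw [not_bddAbove_iff] at hcon
      obtain ⟨t, ht, hnt⟩ := hcon n
      exact measure_mono_null (Set.Iio_subset_Iio hnt.le) ht
    have h2 : ν Set.univ = 0 := by
      have h3 : (Set.univ : Set ℝ) = ⋃ n : ℕ, Set.Iio (n : ℝ) := by
        ext t
        simp only [Set.mem_univ, Set.mem_iUnion, Set.mem_Iio, true_iff]
        exact exists_nat_gt t
      rw [h3]
      exact measure_iUnion_null h1
    rw [measure_univ] at h2
    exact one_ne_zero h2
  set θ₀ : ℝ := sSup A with hθ₀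
  have h00 : 0 ≤ θ₀ := le_csSup hbdd h0
  have h1 : ν (Set.Iio θ₀) = 0 := by
    have h3 : Set.Iio θ₀ = ⋃ n : ℕ, Set.Iio (θ₀ - 1 / ((n : ℝ) + 1)) := by
      ext t
      simp only [Set.mem_iUnion, Set.mem_Iio]
      constructor
      · intro ht
        obtain ⟨n, hn⟩ := exists_nat_one_div_lt (show (0 : ℝ) < θ₀ - t by linarith)
        exact ⟨n, by linarith⟩
      · rintro ⟨n, hn⟩
        have : (0 : ℝ) < 1 / ((n : ℝ) + 1) := by positivity
        linarith
    rw [h3]
    refine measure_iUnion_null fun n => ?_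
    have : (0 : ℝ) < 1 / ((n : ℝ) + 1) := by positivity
    obtain ⟨t, ht, hnt⟩ := exists_lt_of_lt_csSup ⟨0, h0⟩
      (show θ₀ - 1 / ((n : ℝ) + 1) < sSup A by rw [← hθ₀]; linarith)
    exact measure_mono_null (Set.Iio_subset_Iio hnt.le) ht
  have h2 : ν (Set.Iic θ₀) = 0 := by
    rw [← Set.Iio_union_right]
    exact measure_union_null h1 (h.atom θ₀)
  obtain ⟨θ, hθ1, -, hθ2⟩ := Helper50.PB.exists_small h2 hp
  have hθ3 : ν (Set.Ioo 0 θ) ≠ 0 := by
    intro h3
    have h4 : ν (Set.Iio θ) = 0 := by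
      refine measure_mono_null (t := Set.Iic 0 ∪ Set.Ioo 0 θ) ?_
        (measure_union_null (nu_Iic h) h3)
      intro t ht
      rcases le_or_gt t 0 with h5 | h5
      · exact Or.inl h5
      · exact Or.inr ⟨h5, ht⟩
    have h5 : θ ≤ θ₀ := le_csSup hbdd h4
    linarith
  have hθ0 : 0 < θ := lt_of_le_of_lt h00 hθ1
  obtain ⟨n, hn⟩ : ∃ n : ℕ, ν (Set.Ioo 0 (θ - θ / ((n : ℝ) + 2))) ≠ 0 := by
    by_contra hcon
    push Not at hcon
    apply hθ3
    refine measure_mono_null ?_ (measure_iUnion_null hcon)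
    intro t ht
    obtain ⟨n, hn⟩ := exists_nat_gt (θ / (θ - t))
    have h5 : 0 < θ - t := by linarith [ht.2]
    rw [div_lt_iff₀ h5] at hn
    refine Set.mem_iUnion.2 ⟨n, ht.1, ?_⟩
    have h6 : θ / ((n : ℝ) + 2) < θ - t := by
      rw [div_lt_iff₀ (by positivity)]
      nlinarith
    linarith
  refine ⟨θ, θ / ((n : ℝ) + 2), hθ0, by positivity, ?_, ?_, pos_iff_ne_zero.2 hn⟩
  · rw [div_lt_iff₀ (by positivity)]
    have : (0 : ℝ) ≤ n := Nat.cast_nonneg _
    nlinarith
  · exact hθ2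

/-- finitely many positive numbers have a positive lower bound -/
theorem exists_lower {S : Set ℝ} (hS : S.Finite) (hp : ∀ r ∈ S, 0 < r) :
    ∃ m : ℝ, 0 < m ∧ ∀ r ∈ S, m ≤ r := by
  rcases S.eq_empty_or_nonempty with h | h
  · exact ⟨1, one_pos, by simp [h]⟩
  · obtain ⟨m, hm, hmin⟩ := Set.exists_min_image S id hS h
    exact ⟨m, hp m hm, hmin⟩

/-- the weights of `Gd` are admissible -/
theorem ok_of_gd {c : Edge d → ℝ} (h : Helper98.GK.Gd c) : Ok c := by
  refine ⟨h.pos, fun x R => ?_⟩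
  obtain ⟨M, hM⟩ := exists_nat_gt R
  obtain ⟨L, hL⟩ := h.far x M
  have hfin : {r : ℝ | ∃ w' ∈ {w' : List (St d) | w'.length ≤ L}, ∃ s,
      c (ed (pos x w') s) = r}.Finite := by
    refine ((List.finite_length_le (St d) L).prod (Set.finite_univ (α := St d))).image
      (fun q => c (ed (pos x q.1) q.2)) |>.subset ?_
    rintro r ⟨w', hw', s, rfl⟩
    exact ⟨(w', s), ⟨hw', Set.mem_univ _⟩, rfl⟩
  obtain ⟨m, hm, hmin⟩ := exists_lower hfin (by rintro r ⟨w', -, s, rfl⟩; exact h.pos _)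
  have hlen : ∀ w : List (St d), cost c x w ≤ R → m * w.length ≤ cost c x w := by
    intro w
    induction w using List.reverseRecOn with
    | nil => simp [cost]
    | append_singleton w s ih =>
      intro hw
      rw [cost_append] at hw ⊢
      have h1 : cost c (pos x w) [s] = c (ed (pos x w) s) := by simp [cost]
      rw [h1] at hw ⊢
      have h2 := h.pos (ed (pos x w) s)
      have h3 : cost c x w ≤ R := by linarith
      have h4 := ih h3
      obtain ⟨w', hw1, hw2, -, hw4⟩ := Helper98.GK.exists_erase h.pos x w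
      have h5 : w'.length ≤ L := by
        by_contra hcon
        rw [not_le] at hcon
        have := hL w' hw2 hcon.le
        linarith
      have h6 := hmin (c (ed (pos x w) s)) ⟨w', h5, s, by rw [hw1]⟩
      rw [List.length_append, List.length_singleton]
      push_cast
      linarith
  refine (List.finite_length_le (St d) ⌊R / m⌋₊).subset ?_
  intro w hw
  refine Nat.le_floor ?_
  rw [le_div_iff₀ hm, mul_comm]
  exact (hlen w hw).trans hw

theorem ae_ok (h : EnvA P X ν) (hd : 1 ≤ d) : ∀ᵐ ω ∂P, Ok (cf X ω) := by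
  classical
  obtain ⟨p, hp, hpei⟩ := ae_pei h hd
  obtain ⟨θ, η, hθ, -, -, hθp, -⟩ := exists_th h hd hp
  filter_upwards [hpei θ hθp, ae_pos h] with ω h1 h2
  refine ok_of_gd ⟨h2, fun x M => ?_⟩
  obtain ⟨n₀, hn₀⟩ := h1 x
  refine ⟨max n₀ ⌈2 * M / θ⌉₊, fun w hw hl => ?_⟩
  have h3 := hn₀ w ((le_max_left _ _).trans hl) hw
  have h4 := Helper50.PB.le_cost_countP (c := cf X ω) (β := θ)
    (fun e => decide (cf X ω e < θ)) (fun e => (h2 e).le)
    (fun e he => by simpa using he) x w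
  have h5 : (2 * (eds x w).countP (fun e => decide (cf X ω e < θ)) : ℝ) ≤ w.length := by
    exact_mod_cast h3
  have h6 : 2 * (M : ℝ) / θ ≤ w.length :=
    (Nat.le_ceil _).trans (by exact_mod_cast (le_max_right _ _).trans hl)
  rw [div_le_iff₀ hθ] at h6
  nlinarith

end Pool.Agent.Helper56.JT
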